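import Pool.Agent.N207.HG.Stm

/-!
# Project HG: the invariant form of the companion matrix
-/

set_option autoImplicit false

open Matrix Polynomial

namespace Pool.Agent.N459.HG

open Pool.Agent.Y985.OR (Mat)
open Pool.Agent.N207.HG (eL cf cK S_FRM)

/-! ### the numbers `k(i, j)` -/

/-- the entries, for all natural numbers -/
def kk (p v : ℕ → ℝ) (s : ℝ) (i j : ℕ) : ℝ :=
  ∑ l ∈ Finset.range (i + 1), (-1) ^ l * (v (i - l) * p (j + 1 + l) + s * p (i - l) * v (j + 1 + l))

section num

variable (p v : ℕ → ℝ) (s : ℝ)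

lemma kk_zero (j : ℕ) : kk p v s 0 j = v 0 * p (j + 1) + s * p 0 * v (j + 1) := by
  simp [kk]

lemma kk_rec (i j : ℕ) : kk p v s (i + 1) j + kk p v s i (j + 1) = v (i + 1) * p (j + 1) + s * p (i + 1) * v (j + 1) := by
  unfold kk
  rw [Finset.sum_range_succ' _ (i + 1)]
  have : ∑ k ∈ Finset.range (i + 1), (-1 : ℝ) ^ (k + 1) * (v (i + 1 - (k + 1)) * p (j + 1 + (k + 1)) +
      s * p (i + 1 - (k + 1)) * v (j + 1 + (k + 1))) =
      - ∑ l ∈ Finset.range (i + 1), (-1) ^ l * (v (i - l) * p (j + 1 + 1 + l) + s * p (i - l) * v (j + 1 + 1 + l)) := by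
    rw [← Finset.sum_neg_distrib]
    apply Finset.sum_congr rfl
    intro l _
    rw [Nat.add_sub_add_right, show j + 1 + (l + 1) = j + 1 + 1 + l by ring, pow_succ]
    ring
  rw [this]
  simp

/-- the sum `k(i, -1)` vanishes -/
lemma kk_neg {e : ℝ} (hs : s ^ 2 = 1) (hp : ∀ m, (-1) ^ m * p m = e * p m)
    (hv : ∀ m, (-1) ^ m * v m = -s * e * v m) (i : ℕ) :
    ∑ l ∈ Finset.range (i + 1), (-1 : ℝ) ^ l * (v (i - l) * p l + s * p (i - l) * v l) = 0 := by
  have h1 : ∑ l ∈ Finset.range (i + 1), (-1 : ℝ) ^ l * (s * p (i - l) * v l) =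
      ∑ l ∈ Finset.range (i + 1), (-1 : ℝ) ^ (i - l) * (s * p l * v (i - l)) := by
    rw [← Finset.sum_range_reflect]
    apply Finset.sum_congr rfl
    intro l hl
    have : l ≤ i := by simpa [Nat.lt_succ_iff] using hl
    rw [show i + 1 - 1 - l = i - l by omega, Nat.sub_sub_self this]
  have h2 : ∑ l ∈ Finset.range (i + 1), (-1 : ℝ) ^ l * (v (i - l) * p l + s * p (i - l) * v l) =
      ∑ l ∈ Finset.range (i + 1), ((-1 : ℝ) ^ l * (v (i - l) * p l) + (-1 : ℝ) ^ (i - l) * (s * p l * v (i - l))) := by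
    rw [Finset.sum_add_distrib, ← h1, ← Finset.sum_add_distrib]
    exact Finset.sum_congr rfl fun l _ => by ring
  rw [h2]
  apply Finset.sum_eq_zero
  intro l _
  have a := hp l
  have b := hv (i - l)
  calc (-1 : ℝ) ^ l * (v (i - l) * p l) + (-1 : ℝ) ^ (i - l) * (s * p l * v (i - l))
      = v (i - l) * ((-1 : ℝ) ^ l * p l) + s * p l * ((-1 : ℝ) ^ (i - l) * v (i - l)) := by ring
    _ = v (i - l) * (e * p l) + s * p l * (-s * e * v (i - l)) := by rw [a, b]
    _ = (1 - s ^ 2) * (v (i - l) * e * p l) := by ring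
    _ = 0 := by rw [hs]; ring

lemma kk_col {e : ℝ} (hs : s ^ 2 = 1) (hp : ∀ m, (-1) ^ m * p m = e * p m)
    (hv : ∀ m, (-1) ^ m * v m = -s * e * v m) (i : ℕ) :
    kk p v s i 0 = v (i + 1) * p 0 + s * p (i + 1) * v 0 := by
  have h := kk_neg p v s hs hp hv (i + 1)
  rw [Finset.sum_range_succ'] at h
  have : ∑ k ∈ Finset.range (i + 1), (-1 : ℝ) ^ (k + 1) * (v (i + 1 - (k + 1)) * p (k + 1) +
      s * p (i + 1 - (k + 1)) * v (k + 1)) = - kk p v s i 0 := by
    unfold kk
    rw [← Finset.sum_neg_distrib]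
    apply Finset.sum_congr rfl
    intro l _
    rw [Nat.add_sub_add_right, show 0 + 1 + l = l + 1 by ring, pow_succ]
    ring
  rw [this] at h
  simp at h
  linarith

lemma kk_sym {e : ℝ} (hs : s ^ 2 = 1) (hp : ∀ m, (-1) ^ m * p m = e * p m)
    (hv : ∀ m, (-1) ^ m * v m = -s * e * v m) (i j : ℕ) : kk p v s j i = s * kk p v s i j := by
  induction i generalizing j with
  | zero =>
    rw [kk_col p v s hs hp hv, kk_zero]
    linear_combination -(v (j + 1) * p 0) * hs
  | succ i ih =>
    have h1 := kk_rec p v s i j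
    have h2 := kk_rec p v s j i
    have h3 := ih (j + 1)
    linear_combination h2 - s * h1 - h3 - (v (j + 1) * p (i + 1)) * hs

end num

/-! ### matrices -/

/-- a form with the columns and the recursion -/
lemma mat_part {n : ℕ} (hn : 0 < n) (P w : ℝ[X]) (s : ℝ) (hs : s = 1 ∨ s = -1) (hP : P.Monic)
    (hPn : P.natDegree = n) (hw : w.natDegree < n) (hP' : P.comp (-X) = (-1) ^ n * P)
    (hw' : w.comp (-X) = C (-s) * (-1) ^ n * w) :
    (cK n P w s)ᵀ = (s : ℂ) • cK n P w s ∧ (N207.HG.cmp n P)ᵀ * cK n P w s + cK n P w s * N207.HG.cmp n P = 0 ∧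
    cK n P w s *ᵥ eL n = cf n w := by
  have hs2 : s ^ 2 = 1 := by rcases hs with h | h <;> rw [h] <;> norm_num
  have hp : ∀ m, (-1 : ℝ) ^ m * P.coeff m = (-1) ^ n * P.coeff m := by
    intro m
    have h := congrArg (fun q => q.coeff m) hP'
    simp only [show (-X : ℝ[X]) = C (-1) * X by simp, comp_C_mul_X_coeff,
      show ((-1 : ℝ[X]) ^ n) = C ((-1 : ℝ) ^ n) by simp, coeff_C_mul] at h
    linarith
  have hv : ∀ m, (-1 : ℝ) ^ m * w.coeff m = -s * (-1) ^ n * w.coeff m := by
    intro m
    have h := congrArg (fun q => q.coeff m) hw'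
    simp only [show (-X : ℝ[X]) = C (-1) * X by simp, comp_C_mul_X_coeff,
      show C (-s) * ((-1 : ℝ[X]) ^ n) = C (-s * (-1 : ℝ) ^ n) by simp, coeff_C_mul] at h
    linarith
  have hK : ∀ i j : Fin n, cK n P w s i j = ((kk P.coeff w.coeff s i j : ℝ) : ℂ) :=
    fun i j => rfl
  have hPn' : P.coeff n = 1 := by rw [← hPn]; exact hP
  have hP0 : ∀ m, n < m → P.coeff m = 0 := fun m hm => coeff_eq_zero_of_natDegree_lt (by omega)
  have hw0 : ∀ m, n ≤ m → w.coeff m = 0 := fun m hm => coeff_eq_zero_of_natDegree_lt (by omega)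
  have hsym := kk_sym P.coeff w.coeff s hs2 hp hv
  have hcol := kk_col P.coeff w.coeff s hs2 hp hv
  have hrec := kk_rec P.coeff w.coeff s
  have h00 := kk_neg P.coeff w.coeff s hs2 hp hv 0
  -- last column
  have hlast : ∀ i, kk P.coeff w.coeff s i (n - 1) = w.coeff i := by
    intro i
    unfold kk
    rw [Finset.sum_range_succ']
    rw [Finset.sum_eq_zero]
    · rw [show n - 1 + 1 + 0 = n by omega, hPn', hw0 n le_rfl]
      simp
    · intro l _
      rw [hP0 (n - 1 + 1 + (l + 1)) (by omega), hw0 (n - 1 + 1 + (l + 1)) (by omega)]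
      ring
  have hrow : ∀ j, kk P.coeff w.coeff s (n - 1) j = s * w.coeff j := by
    intro j
    rw [hsym j (n - 1), hlast]
  refine ⟨?_, ?_, ?_⟩
  · ext i j
    rw [Matrix.transpose_apply, Matrix.smul_apply, hK, hK, hsym, smul_eq_mul]
    push_cast
    rfl
  · ext i j
    rw [Matrix.add_apply, Matrix.mul_apply, Matrix.mul_apply, Matrix.zero_apply]
    have e1 : ∑ m, (N207.HG.cmp n P)ᵀ i m * cK n P w s m j =
        (if (i : ℕ) = 0 then 0 else ((kk P.coeff w.coeff s (i - 1) j : ℝ) : ℂ)) +
          -(P.coeff i * (s * w.coeff j)) := by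
      have : ∀ m : Fin n, (N207.HG.cmp n P)ᵀ i m * cK n P w s m j =
          (if (i : ℕ) = m + 1 then ((kk P.coeff w.coeff s m j : ℝ) : ℂ) else 0) +
            (if (m : ℕ) + 1 = n then -(P.coeff i * ((kk P.coeff w.coeff s m j : ℝ) : ℂ))
              else 0) := by
        intro m
        rw [Matrix.transpose_apply, hK, N207.HG.cmp, Matrix.of_apply]
        have hi := i.2
        have hm := m.2
        by_cases h1 : (m : ℕ) + 1 < n
        · rw [if_pos h1, if_neg (by omega : ¬ (m : ℕ) + 1 = n)]
          by_cases h2 : (i : ℕ) = m + 1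
          · rw [if_pos h2, if_pos h2]; ring
          · rw [if_neg h2, if_neg h2]; ring
        · rw [if_neg h1, if_pos (by omega : (m : ℕ) + 1 = n), if_neg (by omega : ¬ (i : ℕ) = m + 1)]
          ring
      rw [Finset.sum_congr rfl fun m _ => this m, Finset.sum_add_distrib]
      congr 1
      · by_cases h0 : (i : ℕ) = 0
        · rw [if_pos h0]
          apply Finset.sum_eq_zero
          intro m _
          rw [if_neg (by omega)]
        · rw [if_neg h0]
          have hi := i.2
          rw [Finset.sum_eq_single (⟨i - 1, by omega⟩ : Fin n)]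
          · rw [if_pos (by simp; omega)]
          · intro b _ hb
            rw [if_neg]
            intro h
            apply hb
            ext
            simp
            omega
          · intro h; exact absurd (Finset.mem_univ _) h
      · rw [Finset.sum_eq_single (⟨n - 1, by omega⟩ : Fin n)]
        · rw [if_pos (by simp; omega)]
          rw [hrow]
          push_cast
          ring
        · intro b _ hb
          rw [if_neg]
          intro h
          apply hb
          ext
          simp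
          omega
        · intro h; exact absurd (Finset.mem_univ _) h
    have e2 : ∑ m, cK n P w s i m * N207.HG.cmp n P m j =
        (if (j : ℕ) = 0 then 0 else ((kk P.coeff w.coeff s i (j - 1) : ℝ) : ℂ)) +
          -(w.coeff i * P.coeff j) := by
      have : ∀ m : Fin n, cK n P w s i m * N207.HG.cmp n P m j =
          (if (j : ℕ) = m + 1 then ((kk P.coeff w.coeff s i m : ℝ) : ℂ) else 0) +
            (if (m : ℕ) + 1 = n then -(P.coeff j * ((kk P.coeff w.coeff s i m : ℝ) : ℂ))
              else 0) := by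
        intro m
        rw [hK, N207.HG.cmp, Matrix.of_apply]
        have hi := j.2
        have hm := m.2
        by_cases h1 : (m : ℕ) + 1 < n
        · rw [if_pos h1, if_neg (by omega : ¬ (m : ℕ) + 1 = n)]
          by_cases h2 : (j : ℕ) = m + 1
          · rw [if_pos h2, if_pos h2]; ring
          · rw [if_neg h2, if_neg h2]; ring
        · rw [if_neg h1, if_pos (by omega : (m : ℕ) + 1 = n), if_neg (by omega : ¬ (j : ℕ) = m + 1)]
          ring
      rw [Finset.sum_congr rfl fun m _ => this m, Finset.sum_add_distrib]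
      congr 1
      · by_cases h0 : (j : ℕ) = 0
        · rw [if_pos h0]
          apply Finset.sum_eq_zero
          intro m _
          rw [if_neg (by omega)]
        · rw [if_neg h0]
          have hi := j.2
          rw [Finset.sum_eq_single (⟨j - 1, by omega⟩ : Fin n)]
          · rw [if_pos (by simp; omega)]
          · intro b _ hb
            rw [if_neg]
            intro h
            apply hb
            ext
            simp
            omega
          · intro h; exact absurd (Finset.mem_univ _) h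
      · rw [Finset.sum_eq_single (⟨n - 1, by omega⟩ : Fin n)]
        · rw [if_pos (by simp; omega)]
          rw [hlast]
          ring
        · intro b _ hb
          rw [if_neg]
          intro h
          apply hb
          ext
          simp
          omega
        · intro h; exact absurd (Finset.mem_univ _) h
    rw [e1, e2]
    rcases Nat.eq_zero_or_pos (i : ℕ) with hi | hi <;> rcases Nat.eq_zero_or_pos (j : ℕ) with hj | hj
    · rw [if_pos hi, if_pos hj, hi, hj]
      simp at h00
      have h3 : (0 : ℝ) = - (P.coeff 0 * (s * w.coeff 0)) - w.coeff 0 * P.coeff 0 := by linarith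
      have h4 := congrArg (fun x : ℝ => (x : ℂ)) h3
      push_cast at h4
      linear_combination -h4
    · rw [if_pos hi, if_neg (by omega), hi]
      have h3 := kk_zero P.coeff w.coeff s (j - 1)
      rw [show (j : ℕ) - 1 + 1 = j by omega] at h3
      rw [h3]
      push_cast
      ring
    · rw [if_neg (by omega), if_pos hj, hj]
      have h3 := hcol (i - 1)
      rw [show (i : ℕ) - 1 + 1 = i by omega] at h3
      rw [h3]
      push_cast
      ring
    · rw [if_neg (by omega), if_neg (by omega)]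
      have h3 := hrec (i - 1) (j - 1)
      rw [show (i : ℕ) - 1 + 1 = i by omega, show (j : ℕ) - 1 + 1 = j by omega] at h3
      have h4 := congrArg (fun x : ℝ => (x : ℂ)) h3
      push_cast at h4
      linear_combination h4
  · ext i
    rw [Matrix.mulVec, dotProduct, Finset.sum_eq_single (⟨n - 1, by omega⟩ : Fin n)]
    · rw [hK]
      simp only [eL, cf]
      rw [if_pos (by omega), hlast, mul_one]
    · intro b _ hb
      simp only [eL]
      rw [if_neg, mul_zero]
      intro h
      apply hb
      ext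
      simp
      omega
    · intro h; exact absurd (Finset.mem_univ _) h

/-- the determinant is not zero -/
lemma det_part {n : ℕ} (hn : 0 < n) (P w : ℝ[X]) (s : ℝ) (hP : P.Monic)
    (hPn : P.natDegree = n) (hw : w.natDegree < n)
    (hx : ∀ x : ℂ, Polynomial.aeval x P = 0 → Polynomial.aeval x w ≠ 0)
    (h1 : (cK n P w s)ᵀ = (s : ℂ) • cK n P w s)
    (h2 : (N207.HG.cmp n P)ᵀ * cK n P w s + cK n P w s * N207.HG.cmp n P = 0) (h3 : cK n P w s *ᵥ eL n = cf n w) :
    (cK n P w s).det ≠ 0 := by
  set A := N207.HG.cmp n P with hA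
  set K := cK n P w s with hK
  set z : Fin n := ⟨0, hn⟩ with hz
  -- the first coordinates of the powers
  have hpow : ∀ k : ℕ, k < n → ∀ y : Fin n → ℂ, ∀ hk : k < n, ((A ^ k) *ᵥ y) z = y ⟨k, hk⟩ := by
    intro k
    induction k with
    | zero => intro _ y _; simp [hz]
    | succ k ih =>
      intro hk y _
      rw [pow_succ, ← Matrix.mulVec_mulVec, ih (by omega) _ (by omega)]
      rw [Matrix.mulVec, dotProduct, Finset.sum_eq_single (⟨k + 1, hk⟩ : Fin n)]
      · rw [hA, N207.HG.cmp, Matrix.of_apply, if_pos (by simpa using hk), if_pos rfl, one_mul]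
      · intro b _ hb
        rw [hA, N207.HG.cmp, Matrix.of_apply, if_pos (by simpa using hk), if_neg, zero_mul]
        intro h
        apply hb
        ext
        simpa using h
      · intro h; exact absurd (Finset.mem_univ _) h
  -- polynomials of degree < n in A
  have hpol : ∀ (q : ℝ[X]), q.natDegree < n → ∀ y : Fin n → ℂ,
      ((aeval A (q.map (algebraMap ℝ ℂ))) *ᵥ y) z = ∑ i : Fin n, (q.coeff i : ℂ) * y i := by
    intro q hq y
    rw [aeval_eq_sum_range' (n := n) (by rw [natDegree_map]; exact hq)]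
    rw [Matrix.sum_mulVec, Finset.sum_apply, Finset.sum_range]
    apply Finset.sum_congr rfl
    intro i _
    rw [Matrix.smul_mulVec, Pi.smul_apply, hpow i i.2 y i.2, coeff_map, smul_eq_mul]
    rfl
  have hPpol : ∀ y : Fin n → ℂ, ((aeval A (P.map (algebraMap ℝ ℂ))) *ᵥ y) z = 0 := by
    intro y
    rw [aeval_eq_sum_range' (n := n + 1) (by rw [natDegree_map]; omega)]
    rw [Matrix.sum_mulVec, Finset.sum_apply, Finset.sum_range_succ, Finset.sum_range]
    have e1 : (((P.map (algebraMap ℝ ℂ)).coeff n • A ^ n) *ᵥ y) z = - ∑ i : Fin n, (P.coeff i : ℂ) * y i := by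
      have : P.coeff n = 1 := by rw [← hPn]; exact hP
      rw [coeff_map, this, map_one, one_smul]
      obtain ⟨m, rfl⟩ : ∃ m, n = m + 1 := ⟨n - 1, by omega⟩
      rw [pow_succ, ← Matrix.mulVec_mulVec, hpow m (by omega) _ (by omega), Matrix.mulVec, dotProduct,
        ← Finset.sum_neg_distrib]
      apply Finset.sum_congr rfl
      intro i _
      rw [hA, N207.HG.cmp, Matrix.of_apply, if_neg (by simp)]
      ring
    rw [e1]
    rw [add_neg_eq_zero]
    apply Finset.sum_congr rfl
    intro i _
    rw [Matrix.smul_mulVec, Pi.smul_apply, hpow i i.2 y i.2, coeff_map, smul_eq_mul]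
    rfl
  -- the kernel is invariant
  have hker : ∀ (q : ℂ[X]) (y : Fin n → ℂ), K *ᵥ y = 0 → K *ᵥ ((aeval A q) *ᵥ y) = 0 := by
    have hone : ∀ y : Fin n → ℂ, K *ᵥ y = 0 → K *ᵥ (A *ᵥ y) = 0 := by
      intro y hy
      rw [Matrix.mulVec_mulVec]
      have : K * A = - (Aᵀ * K) := by rw [eq_neg_iff_add_eq_zero, add_comm]; exact h2
      rw [this, Matrix.neg_mulVec, ← Matrix.mulVec_mulVec, hy, Matrix.mulVec_zero, neg_zero]
    intro q
    induction q using Polynomial.induction_on' with
    | add q r hq hr =>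
      intro y hy
      rw [map_add, Matrix.add_mulVec, Matrix.mulVec_add, hq y hy, hr y hy, add_zero]
    | monomial m a =>
      intro y hy
      rw [aeval_monomial, ← Algebra.smul_def, Matrix.smul_mulVec, Matrix.mulVec_smul]
      have : ∀ k : ℕ, K *ᵥ (A ^ k *ᵥ y) = 0 := by
        intro k
        induction k with
        | zero => simpa using hy
        | succ k ih => rw [pow_succ', ← Matrix.mulVec_mulVec]; exact hone _ ih
      rw [this, smul_zero]
  -- w kills the kernel
  have hwk : ∀ y : Fin n → ℂ, K *ᵥ y = 0 → ((aeval A (w.map (algebraMap ℝ ℂ))) *ᵥ y) z = 0 := by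
    intro y hy
    rw [hpol w hw y]
    have e : ∑ i : Fin n, (w.coeff i : ℂ) * y i = cf n w ⬝ᵥ y := rfl
    rw [e, ← h3, dotProduct_comm, Matrix.dotProduct_mulVec, ← Matrix.mulVec_transpose, h1, Matrix.smul_mulVec, hy,
      smul_zero, zero_dotProduct]
  -- coprimality
  have hcop : IsCoprime (w.map (algebraMap ℝ ℂ)) (P.map (algebraMap ℝ ℂ)) := by
    rw [Polynomial.isCoprime_iff_aeval_ne_zero_of_isAlgClosed (k := ℂ) ℂ]
    intro a
    by_contra hcon
    push Not at hcon
    obtain ⟨ha, hb⟩ := hcon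
    rw [aeval_map_algebraMap] at ha hb
    exact hx a hb ha
  obtain ⟨u, v, huv⟩ := hcop
  have hfirst : ∀ y : Fin n → ℂ, K *ᵥ y = 0 → y z = 0 := by
    intro y hy
    have e : y = (aeval A (1 : ℂ[X])) *ᵥ y := by rw [map_one, Matrix.one_mulVec]
    rw [e, ← huv, map_add, map_mul, map_mul, Matrix.add_mulVec, Pi.add_apply]
    rw [show aeval A u * aeval A (w.map (algebraMap ℝ ℂ)) = aeval A (w.map (algebraMap ℝ ℂ)) * aeval A u by
      rw [← map_mul, ← map_mul, mul_comm]]
    rw [show aeval A v * aeval A (P.map (algebraMap ℝ ℂ)) = aeval A (P.map (algebraMap ℝ ℂ)) * aeval A v by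
      rw [← map_mul, ← map_mul, mul_comm]]
    rw [← Matrix.mulVec_mulVec, ← Matrix.mulVec_mulVec, hPpol, hwk _ (hker u y hy), add_zero]
  intro hdet
  obtain ⟨y, hy0, hy⟩ := Matrix.exists_mulVec_eq_zero_iff.mpr hdet
  apply hy0
  ext i
  have h := hfirst (A ^ (i : ℕ) *ᵥ y) (by
    have := hker (X ^ (i : ℕ)) y hy
    rwa [map_pow, aeval_X] at this)
  rw [hpow i i.2 y i.2] at h
  simpa using h

lemma row_part {n : ℕ} (hn : 0 < n) (P w Q : ℝ[X]) (hw : w.natDegree < n) (hQn : Q.natDegree = n) (hQ : Q.Monic)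
    (hQw : Q = (X + C (1 / 2)) * w) :
    cf n (Q - P) = cf n w ᵥ* N207.HG.cmp n P + (1 / 2 : ℂ) • cf n w := by
  have hw0 : ∀ m, n ≤ m → w.coeff m = 0 := fun m hm => coeff_eq_zero_of_natDegree_lt (by omega)
  have hc : ∀ m, Q.coeff (m + 1) = w.coeff m + 1 / 2 * w.coeff (m + 1) := by
    intro m
    rw [hQw, add_mul, coeff_add, coeff_X_mul, coeff_C_mul]
  have hc0 : Q.coeff 0 = 1 / 2 * w.coeff 0 := by
    rw [hQw, add_mul, coeff_add, coeff_C_mul]; simp
  have h1 : w.coeff (n - 1) = 1 := by
    have h2 : Q.coeff n = 1 := by rw [← hQn]; exact hQ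
    have h3 := hc (n - 1)
    rw [show n - 1 + 1 = n by omega, h2, hw0 n le_rfl] at h3
    linarith
  ext j
  rw [Pi.add_apply, Pi.smul_apply, Matrix.vecMul, dotProduct]
  have : ∀ m : Fin n, cf n w m * N207.HG.cmp n P m j =
      (if (j : ℕ) = m + 1 then (w.coeff m : ℂ) else 0) +
        (if (m : ℕ) + 1 = n then -(P.coeff j * (w.coeff m : ℂ)) else 0) := by
    intro m
    rw [cf, N207.HG.cmp, Matrix.of_apply]
    have hi := j.2
    have hm := m.2
    by_cases h1 : (m : ℕ) + 1 < n
    · rw [if_pos h1, if_neg (by omega : ¬ (m : ℕ) + 1 = n)]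
      by_cases h2 : (j : ℕ) = m + 1
      · rw [if_pos h2, if_pos h2]; ring
      · rw [if_neg h2, if_neg h2]; ring
    · rw [if_neg h1, if_pos (by omega : (m : ℕ) + 1 = n), if_neg (by omega : ¬ (j : ℕ) = m + 1)]
      ring
  rw [Finset.sum_congr rfl fun m _ => this m, Finset.sum_add_distrib]
  have e2 : ∑ m : Fin n, (if (m : ℕ) + 1 = n then -(P.coeff j * (w.coeff m : ℂ)) else 0) = -(P.coeff j : ℂ) := by
    rw [Finset.sum_eq_single (⟨n - 1, by omega⟩ : Fin n)]
    · rw [if_pos (by simp; omega), h1]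
      simp
    · intro b _ hb
      rw [if_neg]
      intro h
      apply hb
      ext
      simp
      omega
    · intro h; exact absurd (Finset.mem_univ _) h
  rw [e2]
  simp only [cf, smul_eq_mul, coeff_sub]
  rcases Nat.eq_zero_or_pos (j : ℕ) with hj | hj
  · rw [Finset.sum_eq_zero (fun m _ => by rw [if_neg (by omega)]), hj, hc0]
    push_cast
    ring
  · have hi := j.2
    rw [Finset.sum_eq_single (⟨j - 1, by omega⟩ : Fin n)]
    · rw [if_pos (by simp; omega)]
      have h3 := hc (j - 1)
      rw [show (j : ℕ) - 1 + 1 = j by omega] at h3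
      rw [h3]
      push_cast
      ring
    · intro b _ hb
      rw [if_neg]
      intro h
      apply hb
      ext
      simp
      omega
    · intro h; exact absurd (Finset.mem_univ _) h

theorem frm : S_FRM := by
  intro n P w s hn hs hP hPn hw hP' hw' hx
  obtain ⟨h1, h2, h3⟩ := mat_part hn P w s hs hP hPn hw hP' hw'
  exact ⟨h1, h2, h3, det_part hn P w s hP hPn hw hx h1 h2 h3, fun Q hQn hQ hQw => row_part hn P w Q hw hQn hQ hQw⟩

end Pool.Agent.N459.HG
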